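import Mathlib

/-!
# Positive solutions of block equations: the smallest coordinate

If `d > 0` in `ℝ^(m+1)` satisfies `m` linearly independent equations, each equating the sums over
two blocks of consecutive coordinates, then `∑ d ≤ 2 ^ m * d i` for every `i`.
-/

set_option autoImplicit false

open Matrix

namespace Pool.Agent.X3.Seq

/-- indicator of the block `i ≤ t < j` -/
def ivl (n i j : ℕ) : Fin n → ℤ := fun t => if i ≤ (t : ℕ) ∧ (t : ℕ) < j then 1 else 0

/-- determinants of matrices whose rows have at most one entry `1`, at most one entry `-1`, and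
zeros elsewhere -/
lemma net_det (n : ℕ) : ∀ A : Matrix (Fin n) (Fin n) ℤ,
    (∀ i j, A i j = 0 ∨ A i j = 1 ∨ A i j = -1) →
    (∀ i j j', A i j = 1 → A i j' = 1 → j = j') →
    (∀ i j j', A i j = -1 → A i j' = -1 → j = j') → |A.det| ≤ 1 := by
  induction n with
  | zero => intro A _ _ _; simp
  | succ n ih =>
    intro A h0 h1 h2
    by_cases hrow : ∃ i, (∀ j, A i j ≠ 1) ∨ (∀ j, A i j ≠ -1)
    · obtain ⟨i, hi⟩ := hrow
      by_cases hz : ∀ j, A i j = 0
      · rw [Matrix.det_eq_zero_of_row_eq_zero i hz]; norm_num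
      · push Not at hz
        obtain ⟨j0, hj0⟩ := hz
        have huniq : ∀ j, j ≠ j0 → A i j = 0 := by
          intro j hj
          rcases hi with hi | hi
          · rcases h0 i j with h | h | h
            · exact h
            · exact absurd h (hi j)
            · rcases h0 i j0 with h' | h' | h'
              · exact absurd h' hj0
              · exact absurd h' (hi j0)
              · exact absurd (h2 i j j0 h h') hj
          · rcases h0 i j with h | h | h
            · exact h
            · rcases h0 i j0 with h' | h' | h'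
              · exact absurd h' hj0
              · exact absurd (h1 i j j0 h h') hj
              · exact absurd h' (hi j0)
            · exact absurd h (hi j)
        rw [Matrix.det_succ_row A i, Finset.sum_eq_single j0]
        · have hsub := ih (A.submatrix i.succAbove j0.succAbove) (fun a b => h0 _ _)
            (fun a b b' hb hb' => Fin.succAbove_right_injective (h1 _ _ _ hb hb'))
            (fun a b b' hb hb' => Fin.succAbove_right_injective (h2 _ _ _ hb hb'))
          rw [abs_mul, abs_mul, abs_pow, abs_neg, abs_one, one_pow, one_mul]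
          have : |A i j0| ≤ 1 := by
            rcases h0 i j0 with h | h | h <;> rw [h] <;> norm_num
          calc |A i j0| * |(A.submatrix i.succAbove j0.succAbove).det| ≤ 1 * 1 :=
                mul_le_mul this hsub (abs_nonneg _) (by norm_num)
            _ = 1 := by norm_num
        · intro j _ hj
          rw [huniq j hj]; ring
        · simp
    · push Not at hrow
      have hdet : A.det = 0 := by
        rw [← Matrix.exists_mulVec_eq_zero_iff]
        refine ⟨fun _ => 1, ?_, ?_⟩
        · intro h
          have := congrFun h 0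
          simp at this
        · funext i
          obtain ⟨⟨a, ha⟩, ⟨b, hb⟩⟩ := hrow i
          have hab : a ≠ b := by
            rintro rfl
            rw [ha] at hb
            norm_num at hb
          simp only [Matrix.mulVec, dotProduct, mul_one, Pi.zero_apply]
          rw [← Finset.add_sum_erase Finset.univ _ (Finset.mem_univ a),
            ← Finset.add_sum_erase (Finset.univ.erase a) _
              (Finset.mem_erase.2 ⟨Ne.symm hab, Finset.mem_univ b⟩), ha, hb]
          have : ∑ x ∈ (Finset.univ.erase a).erase b, A i x = 0 := by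
            refine Finset.sum_eq_zero fun x hx => ?_
            rw [Finset.mem_erase, Finset.mem_erase] at hx
            rcases h0 i x with h | h | h
            · exact h
            · exact absurd (h1 i x a h ha) hx.2.1
            · exact absurd (h2 i x b h hb) hx.1
          rw [this]
          norm_num
      rw [hdet]; norm_num

/-- **Interval matrices have determinant `0`, `1` or `-1`.** -/
lemma det_intervals {n : ℕ} (A : Matrix (Fin n) (Fin n) ℤ)
    (hA : ∀ s, ∃ i j : ℕ, i ≤ j ∧ j ≤ n ∧ A s = ivl n i j) : |A.det| ≤ 1 := by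
  choose a b hab hbn hA using hA
  let L : Matrix (Fin n) (Fin n) ℤ := Matrix.of fun t u => if (u : ℕ) ≤ (t : ℕ) then 1 else 0
  let C : Matrix (Fin n) (Fin n) ℤ := Matrix.of fun s t =>
    (if (t : ℕ) + 1 = b s then 1 else 0) - (if (t : ℕ) + 1 = a s then 1 else 0)
  have hone : ∀ (c : ℕ) (hc : c ≤ n) (u : Fin n),
      ∑ t : Fin n, (if (t : ℕ) + 1 = c then (1 : ℤ) else 0) * (if (u : ℕ) ≤ (t : ℕ) then 1 else 0) =
        if (u : ℕ) < c then 1 else 0 := by
    intro c hc u
    by_cases h : (u : ℕ) < c
    · rw [if_pos h, Finset.sum_eq_single (⟨c - 1, by omega⟩ : Fin n)]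
      · have e1 : c - 1 + 1 = c := by omega
        have e2 : (u : ℕ) ≤ c - 1 := by omega
        simp [e1, e2]
      · intro t _ ht
        rw [if_neg, zero_mul]
        intro h'
        apply ht
        apply Fin.ext
        simp only
        omega
      · simp
    · rw [if_neg h]
      refine Finset.sum_eq_zero fun t _ => ?_
      by_cases h1 : (t : ℕ) + 1 = c
      · rw [if_neg (by omega : ¬ (u : ℕ) ≤ (t : ℕ)), mul_zero]
      · rw [if_neg h1, zero_mul]
  have hfac : A = C * L := by
    ext s u
    rw [Matrix.mul_apply, hA s]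
    simp only [C, L, Matrix.of_apply, sub_mul, Finset.sum_sub_distrib]
    rw [hone _ (hbn s), hone _ ((hab s).trans (hbn s)), ivl]
    have := hab s
    by_cases h1 : (u : ℕ) < b s <;> by_cases h2 : (u : ℕ) < a s
    · rw [if_neg (by omega), if_pos h1, if_pos h2]; norm_num
    · rw [if_pos (by omega), if_pos h1, if_neg h2]; norm_num
    · omega
    · rw [if_neg (by omega), if_neg h1, if_neg h2]; norm_num
  have hL : L.det = 1 := by
    rw [Matrix.det_of_isLowerTriangular]
    · simp [L]
    · intro i j hij
      have h1 : (i : ℕ) < (j : ℕ) := hij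
      simp only [L, Matrix.of_apply]
      rw [if_neg (by omega)]
  rw [hfac, Matrix.det_mul, hL, mul_one]
  refine net_det n C ?_ ?_ ?_
  · intro s t
    simp only [C, Matrix.of_apply]
    split_ifs <;> simp
  · intro s t t' h h'
    simp only [C, Matrix.of_apply] at h h'
    apply Fin.ext
    split_ifs at h h' <;> simp_all
    omega
  · intro s t t' h h'
    simp only [C, Matrix.of_apply] at h h'
    apply Fin.ext
    split_ifs at h h' <;> simp_all
    omega

/-- rows which are differences of intervals -/
lemma det_diff {n : ℕ} (S : Finset (Fin n)) : ∀ A : Matrix (Fin n) (Fin n) ℤ,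
    (∀ s ∉ S, ∃ i j : ℕ, i ≤ j ∧ j ≤ n ∧ A s = ivl n i j) →
    (∀ s ∈ S, ∃ i j k l : ℕ, i ≤ j ∧ j ≤ n ∧ k ≤ l ∧ l ≤ n ∧ A s = ivl n i j - ivl n k l) →
    |A.det| ≤ 2 ^ S.card := by
  classical
  induction S using Finset.induction_on with
  | empty =>
    intro A h1 _
    simpa using det_intervals A (fun s => h1 s (by simp))
  | insert r S hr ih =>
    intro A h1 h2
    obtain ⟨i, j, k, l, hij, hj, hkl, hl, hA⟩ := h2 r (Finset.mem_insert_self r S)
    have hup : A = A.updateRow r (ivl n i j + (-1 : ℤ) • ivl n k l) := by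
      have e : ivl n i j + (-1 : ℤ) • ivl n k l = A r := by
        rw [hA]; simp [sub_eq_add_neg]
      rw [e, Matrix.updateRow_eq_self]
    have hdet : A.det = (A.updateRow r (ivl n i j)).det - (A.updateRow r (ivl n k l)).det := by
      conv_lhs => rw [hup]
      rw [Matrix.det_updateRow_add, Matrix.det_updateRow_smul]
      ring
    have hkey : ∀ i j : ℕ, i ≤ j → j ≤ n → |(A.updateRow r (ivl n i j)).det| ≤ 2 ^ S.card := by
      intro i j hij hj
      refine ih _ ?_ ?_
      · intro s hs
        by_cases hsr : s = r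
        · subst hsr
          exact ⟨i, j, hij, hj, by rw [Matrix.updateRow_self]⟩
        · rw [Matrix.updateRow_ne hsr]
          exact h1 s (by simp [hs, hsr])
      · intro s hs
        have hsr : s ≠ r := by rintro rfl; exact hr hs
        rw [Matrix.updateRow_ne hsr]
        exact h2 s (Finset.mem_insert_of_mem hs)
    rw [hdet, Finset.card_insert_of_notMem hr, pow_succ]
    have e1 := hkey i j hij hj
    have e2 := hkey k l hkl hl
    calc |(A.updateRow r (ivl n i j)).det - (A.updateRow r (ivl n k l)).det| ≤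
          |(A.updateRow r (ivl n i j)).det| + |(A.updateRow r (ivl n k l)).det| := abs_sub _ _
      _ ≤ 2 ^ S.card * 2 := by linarith

/-- **Main bound.** -/
theorem bound {m : ℕ} (d : Fin (m + 1) → ℝ) (hd : ∀ i, 0 < d i)
    (r : Fin m → Fin (m + 1) → ℤ)
    (hr : ∀ s, ∃ i j k l : ℕ, i ≤ j ∧ j ≤ m + 1 ∧ k ≤ l ∧ l ≤ m + 1 ∧
      r s = ivl (m + 1) i j - ivl (m + 1) k l)
    (hli : LinearIndependent ℝ (fun s => (fun t => (r s t : ℝ))))
    (hrd : ∀ s, ∑ t, (r s t : ℝ) * d t = 0) (i : Fin (m + 1)) :
    ∑ t, d t ≤ 2 ^ m * d i := by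
  classical
  set S : ℝ := ∑ t, d t with hS
  have hSpos : 0 < S := Finset.sum_pos (fun t _ => hd t) Finset.univ_nonempty
  let N : Matrix (Fin (m + 1)) (Fin (m + 1)) ℤ := Matrix.of (Fin.cons (fun _ => 1) r)
  let NR : Matrix (Fin (m + 1)) (Fin (m + 1)) ℝ := N.map (Int.cast : ℤ → ℝ)
  have hN0 : ∀ t, NR 0 t = 1 := by intro t; simp [NR, N]
  have hNs : ∀ s t, NR (Fin.succ s) t = r s t := by intro s t; simp [NR, N]
  -- `NR d = (S, 0, ..., 0)`
  have hNd : NR *ᵥ d = Pi.single 0 S := by
    funext s
    refine Fin.cases ?_ (fun s => ?_) s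
    · simp only [Matrix.mulVec, dotProduct, hN0, one_mul, Pi.single_eq_same]
      rfl
    · simp only [Matrix.mulVec, dotProduct, hNs]
      rw [hrd, Pi.single_eq_of_ne (Fin.succ_ne_zero s)]
  -- the determinant is not zero
  have hdet0 : NR.det ≠ 0 := by
    intro h0
    obtain ⟨v, hv, hv0⟩ := Matrix.exists_vecMul_eq_zero_iff.2 h0
    have h1 : v 0 * S = 0 := by
      have h2 : (v ᵥ* NR) ⬝ᵥ d = 0 := by rw [hv0, zero_dotProduct]
      rw [← Matrix.dotProduct_mulVec, hNd] at h2
      simpa using h2
    have hv00 : v 0 = 0 := by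
      rcases mul_eq_zero.1 h1 with h | h
      · exact h
      · exact absurd h hSpos.ne'
    have h2 : ∀ s : Fin m, v s.succ = 0 := by
      have h3 := Fintype.linearIndependent_iff.1 hli (fun s => v s.succ) (by
        funext t
        have h4 := congrFun hv0 t
        simp only [Matrix.vecMul, dotProduct, Fin.sum_univ_succ, hv00, zero_mul, zero_add, hNs,
          Pi.zero_apply] at h4
        rw [Finset.sum_apply]
        simpa using h4)
      exact h3
    apply hv
    funext s
    refine Fin.cases hv00 (fun s => h2 s) s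
  -- the size of the determinant
  have hdetle : |N.det| ≤ 2 ^ m := by
    have h1 := det_diff (Finset.univ.erase (0 : Fin (m + 1))) N (by
      intro s hs
      have : s = 0 := by simpa using hs
      subst this
      refine ⟨0, m + 1, Nat.zero_le _, le_rfl, ?_⟩
      funext t
      simp [N, ivl, t.isLt]) (by
      intro s hs
      have hs0 : s ≠ 0 := (Finset.mem_erase.1 hs).1
      obtain ⟨s', rfl⟩ := Fin.exists_succ_eq.2 hs0
      obtain ⟨i, j, k, l, h1, h2, h3, h4, h5⟩ := hr s'
      exact ⟨i, j, k, l, h1, h2, h3, h4, by rw [← h5]; rfl⟩)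
    rw [Finset.card_erase_of_mem (Finset.mem_univ _), Finset.card_univ, Fintype.card_fin,
      Nat.add_sub_cancel] at h1
    exact h1
  have hNRdet : NR.det = (N.det : ℝ) := by
    simp only [NR]
    exact (Int.cast_det N).symm
  -- Cramer
  have hcr : NR.det * d i = S * (NR.updateRow 0 (Pi.single i 1)).det := by
    have h1 : (NR.adjugate *ᵥ (NR *ᵥ d)) i = NR.det * d i := by
      rw [Matrix.mulVec_mulVec, Matrix.adjugate_mul, Matrix.smul_mulVec, Matrix.one_mulVec]
      rfl
    rw [← h1, hNd]
    simp only [Matrix.mulVec, dotProduct]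
    rw [Finset.sum_eq_single 0]
    · rw [Pi.single_eq_same, Matrix.adjugate_apply]; ring
    · intro b _ hb
      rw [Pi.single_eq_of_ne hb, mul_zero]
    · simp
  have hint : (NR.updateRow 0 (Pi.single i 1)).det =
      (((N.updateRow 0 (Pi.single i 1)).det : ℤ) : ℝ) := by
    rw [Int.cast_det]
    congr 1
    ext s t
    refine Fin.cases ?_ (fun s => ?_) s
    · simp only [Matrix.updateRow_self, Matrix.map_apply]
      by_cases h : t = i
      · subst h; simp
      · simp [Pi.single_eq_of_ne h]
    · rw [Matrix.updateRow_ne (Fin.succ_ne_zero s)]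
      simp only [Matrix.map_apply]
      rw [Matrix.updateRow_ne (Fin.succ_ne_zero s)]
      rfl
  set c : ℤ := (N.updateRow 0 (Pi.single i 1)).det with hc
  have hc0 : c ≠ 0 := by
    intro h0
    rw [hint, h0, Int.cast_zero, mul_zero] at hcr
    rcases mul_eq_zero.1 hcr with h | h
    · exact hdet0 h
    · exact absurd h (hd i).ne'
  have hc1 : (1 : ℝ) ≤ |(c : ℝ)| := by
    have := Int.one_le_abs hc0
    exact_mod_cast this
  have habs : |NR.det| * d i = S * |(c : ℝ)| := by
    have := congrArg abs hcr
    rw [abs_mul, abs_mul, abs_of_pos (hd i), abs_of_pos hSpos, hint] at this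
    exact this
  have hle : |NR.det| ≤ 2 ^ m := by
    rw [hNRdet]
    exact_mod_cast hdetle
  calc S = S * 1 := (mul_one S).symm
    _ ≤ S * |(c : ℝ)| := mul_le_mul_of_nonneg_left hc1 hSpos.le
    _ = |NR.det| * d i := habs.symm
    _ ≤ 2 ^ m * d i := mul_le_mul_of_nonneg_right hle (hd i).le

/-- the doubling sequence `1, 1, 2, 4, ...` -/
noncomputable def dbl (t : ℕ) : ℝ := if t = 0 then 1 else 2 ^ (t - 1)

lemma sum_dbl (r : ℕ) : ∑ t ∈ Finset.range (r + 1), dbl t = 2 ^ r := by
  induction r with
  | zero => simp [dbl]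
  | succ r ih =>
    rw [Finset.sum_range_succ, ih]
    simp [dbl, pow_succ]
    ring

lemma dbl_pos (t : ℕ) : 0 < dbl t := by
  unfold dbl
  split_ifs <;> positivity

lemma one_le_dbl (t : ℕ) : 1 ≤ dbl t := by
  unfold dbl
  split_ifs
  · exact le_rfl
  · exact one_le_pow₀ (by norm_num)

lemma sum_ivl (m a b : ℕ) (_ : a ≤ b) (hb : b ≤ m + 1) (f : ℕ → ℝ) :
    ∑ t : Fin (m + 1), (ivl (m + 1) a b t : ℝ) * f t = ∑ t ∈ Finset.Ico a b, f t := by
  have h1 : ∑ t : Fin (m + 1), (ivl (m + 1) a b t : ℝ) * f t =
      ∑ t : Fin (m + 1), (fun t : ℕ => if a ≤ t ∧ t < b then f t else 0) t := by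
    refine Finset.sum_congr rfl fun t _ => ?_
    unfold ivl
    by_cases h : a ≤ (t : ℕ) ∧ (t : ℕ) < b
    · simp [h]
    · simp [h]
  rw [h1, Fin.sum_univ_eq_sum_range (fun t : ℕ => if a ≤ t ∧ t < b then f t else 0) (m + 1),
    ← Finset.sum_filter]
  refine Finset.sum_congr ?_ fun _ _ => rfl
  ext t
  simp only [Finset.mem_filter, Finset.mem_range, Finset.mem_Ico]
  omega

/-- The doubling sequence satisfies `m` independent equations. -/
theorem dbl_indep (m : ℕ) : LinearIndependent ℝ (fun s : Fin m => (fun t : Fin (m + 1) =>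
    (((ivl (m + 1) 0 (s + 1) - ivl (m + 1) (s + 1) (s + 2)) t : ℤ) : ℝ))) := by
  classical
  let M : Matrix (Fin m) (Fin m) ℝ := Matrix.of fun s t =>
    (((ivl (m + 1) 0 (s + 1) - ivl (m + 1) (s + 1) (s + 2)) t.succ : ℤ) : ℝ)
  have hM : ∀ s t : Fin m, M s t = if (t : ℕ) < s then 1 else if t = s then -1 else 0 := by
    intro s t
    simp only [M, Matrix.of_apply, Pi.sub_apply, ivl, Fin.val_succ]
    by_cases h1 : (t : ℕ) < s
    · rw [if_pos (by omega), if_neg (by omega), if_pos h1]; norm_num
    · by_cases h2 : t = s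
      · subst h2
        rw [if_neg (by omega), if_pos (by omega), if_neg h1, if_pos rfl]; norm_num
      · have : (t : ℕ) ≠ s := fun h => h2 (Fin.ext h)
        rw [if_neg (by omega), if_neg (by omega), if_neg h1, if_neg h2]; norm_num
  have hdet : M.det ≠ 0 := by
    rw [Matrix.det_of_isLowerTriangular]
    · have : ∀ i, M i i = -1 := by intro i; rw [hM]; simp
      simp only [this]
      rw [Finset.prod_const]
      exact pow_ne_zero _ (by norm_num)
    · intro i j hij
      have h1 : (i : ℕ) < (j : ℕ) := hij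
      rw [hM, if_neg (by omega), if_neg]
      rintro rfl
      omega
  have hrows := Matrix.linearIndependent_rows_of_det_ne_zero hdet
  refine LinearIndependent.of_comp (LinearMap.funLeft ℝ ℝ (Fin.succ : Fin m → Fin (m + 1))) ?_
  exact hrows

theorem dbl_eq (m : ℕ) (s : Fin m) :
    ∑ t : Fin (m + 1), (((ivl (m + 1) 0 (s + 1) - ivl (m + 1) (s + 1) (s + 2)) t : ℤ) : ℝ) *
      dbl t = 0 := by
  have h1 : ∑ t : Fin (m + 1), (((ivl (m + 1) 0 (s + 1) - ivl (m + 1) (s + 1) (s + 2)) t : ℤ) : ℝ) *
      dbl t = ∑ t : Fin (m + 1), (ivl (m + 1) 0 (s + 1) t : ℝ) * dbl t -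
        ∑ t : Fin (m + 1), (ivl (m + 1) (s + 1) (s + 2) t : ℝ) * dbl t := by
    rw [← Finset.sum_sub_distrib]
    refine Finset.sum_congr rfl fun t _ => ?_
    rw [Pi.sub_apply]
    push_cast
    ring
  have hs := s.isLt
  rw [h1, sum_ivl m 0 (s + 1) (by omega) (by omega), sum_ivl m (s + 1) (s + 2) (by omega)
    (by omega)]
  have h2 : Finset.Ico ((s : ℕ) + 1) (s + 2) = {(s : ℕ) + 1} := by
    ext t
    simp only [Finset.mem_Ico, Finset.mem_singleton]
    omega
  rw [h2, Finset.sum_singleton, ← Finset.range_eq_Ico, sum_dbl]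
  simp [dbl]

end Pool.Agent.X3.Seq
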